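import Pool.Agent.H317.GR.StmA

/-!
# Project GR, statement `S_PAI`: dense p-adic representations
-/

set_option autoImplicit false

namespace Pool.Agent.H322.GR

open Matrix Module Pool.Agent.H317.GR

variable {n : ℕ}

/-- reduction of `SL_n(ℤ_p)` modulo `p^k` -/
noncomputable def rk (n p k : ℕ) [Fact p.Prime] :
    SpecialLinearGroup (Fin n) ℤ_[p] →* SpecialLinearGroup (Fin n) (ZMod (p ^ k)) :=
  SpecialLinearGroup.map (PadicInt.toZModPow k)

/-- reduction of `SL_n(ℤ)` -/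
def rZ (n m : ℕ) : SZ n →* SpecialLinearGroup (Fin n) (ZMod m) :=
  SpecialLinearGroup.map (Int.castRingHom (ZMod m))

lemma dvd_iff' (p k : ℕ) [Fact p.Prime] (x : ℤ_[p]) :
    (p : ℤ_[p]) ^ k ∣ x ↔ PadicInt.toZModPow k x = 0 := by
  rw [← RingHom.mem_ker, PadicInt.ker_toZModPow, Ideal.mem_span_singleton]

lemma dense_iff {G : Type} [Group G] {p : ℕ} [Fact p.Prime]
    (ρ : G →* SpecialLinearGroup (Fin n) ℤ_[p]) :
    DenseP ρ ↔ ∀ (A : SZ n) (k : ℕ), ∃ g : G, rk n p k (ρ g) = rZ n (p ^ k) A := by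
  have key : ∀ (A : SZ n) (k : ℕ) (g : G),
      (∀ i j : Fin n, (p : ℤ_[p]) ^ k ∣ (ρ g).val i j - (A.val i j : ℤ_[p])) ↔
        rk n p k (ρ g) = rZ n (p ^ k) A := by
    intro A k g
    constructor
    · intro h
      apply Subtype.ext
      ext i j
      have h1 := (dvd_iff' p k _).1 (h i j)
      rw [map_sub, sub_eq_zero, map_intCast] at h1
      exact h1
    · intro h i j
      rw [dvd_iff', map_sub, sub_eq_zero, map_intCast]
      have h1 := congrFun (congrFun (congrArg Subtype.val h) i) j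
      exact h1
  unfold DenseP
  simp only [key]

lemma tr_rk (p k : ℕ) [Fact p.Prime] (B : SpecialLinearGroup (Fin n) ℤ_[p]) :
    PadicInt.toZModPow k B.val.trace = (rk n p k B).val.trace :=
  AddMonoidHom.map_trace (PadicInt.toZModPow k) B.val

lemma tr_rZ (m : ℕ) (A : SZ n) : ((A.val.trace : ℤ) : ZMod m) = (rZ n m A).val.trace :=
  AddMonoidHom.map_trace (Int.castRingHom (ZMod m)) A.val

/-- an elementary matrix -/
def xt {i j : Fin n} (h : i ≠ j) (a : ℤ) : SZ n := SpecialLinearGroup.transvection h a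

lemma tr_two {i j : Fin n} (h : i ≠ j) (a : ℤ) :
    (xt h a * xt h.symm 1).val.trace = (n : ℤ) + a := by
  have : (xt h a * xt h.symm 1).val = (1 + Matrix.single i j a) * (1 + Matrix.single j i 1) := rfl
  rw [this]
  simp [mul_add, add_mul, h, h.symm]

lemma tr_three {a b c : Fin n} (hab : a ≠ b) (hbc : b ≠ c) (hca : c ≠ a) :
    (xt hab 1 * xt hbc 1 * xt hca 1).val.trace = (n : ℤ) + 1 := by
  have : (xt hab 1 * xt hbc 1 * xt hca 1).val =
    (1 + Matrix.single a b 1) * (1 + Matrix.single b c 1) * (1 + Matrix.single c a 1) := rfl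
  rw [this]
  simp [mul_add, add_mul, hab, hab.symm, hbc, hca, hca.symm]

lemma tr_three' {a b c : Fin n} (hab : a ≠ b) (hbc : b ≠ c) (hca : c ≠ a) :
    ((xt hab 1 * xt hbc 1 * xt hca 1)⁻¹).val.trace = (n : ℤ) := by
  have : ((xt hab 1 * xt hbc 1 * xt hca 1)⁻¹).val =
      (1 + Matrix.single c a (-1)) * ((1 + Matrix.single b c (-1)) *
        (1 + Matrix.single a b (-1))) := by
    rw [_root_.mul_inv_rev, _root_.mul_inv_rev]
    unfold xt
    rw [SpecialLinearGroup.transvection_inv, SpecialLinearGroup.transvection_inv,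
      SpecialLinearGroup.transvection_inv]
    rfl
  rw [this]
  simp [mul_add, add_mul, hab, hbc, hbc.symm, hca]

lemma dl_dl (R : Type) [CommRing R] (A : SpecialLinearGroup (Fin n) R) :
    dl n R (dl n R A) = A := by
  have h1 : dl n R (dl n R A) = ((dl n R A)⁻¹).transpose := rfl
  rw [h1, ← map_inv]
  have h2 : dl n R A⁻¹ = ((A⁻¹)⁻¹).transpose := rfl
  rw [h2, inv_inv]
  rfl

lemma map_dl {R S : Type} [CommRing R] [CommRing S] (f : R →+* S)
    (A : SpecialLinearGroup (Fin n) R) :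
    SpecialLinearGroup.map f (dl n R A) = dl n S (SpecialLinearGroup.map f A) := by
  have h1 : dl n S (SpecialLinearGroup.map f A) = ((SpecialLinearGroup.map f A)⁻¹).transpose := rfl
  rw [h1, ← map_inv]
  rfl

lemma infin {p : ℕ} [Fact p.Prime] (hn : 3 ≤ n) {Λ : Type} [Group Λ]
    (ρ : Λ →* SpecialLinearGroup (Fin n) ℤ_[p])
    (hd : ∀ (A : SZ n) (k : ℕ), ∃ g : Λ, rk n p k (ρ g) = rZ n (p ^ k) A) :
    (Set.range fun g => (ρ g).val.trace).Infinite := by
  intro hf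
  set S := Set.range fun g => (ρ g).val.trace with hS
  set k := S.ncard with hk
  have hp : p.Prime := Fact.out
  have : NeZero (p ^ k) := ⟨pow_ne_zero _ hp.ne_zero⟩
  have h01 : (⟨0, by omega⟩ : Fin n) ≠ ⟨1, by omega⟩ := by
    intro h; simp [Fin.ext_iff] at h
  have hsurj : (PadicInt.toZModPow k : ℤ_[p] →+* ZMod (p ^ k)) '' S = Set.univ := by
    rw [Set.eq_univ_iff_forall]
    intro z
    obtain ⟨a, ha⟩ := ZMod.intCast_surjective (z - (n : ZMod (p ^ k)))
    obtain ⟨g, hg⟩ := hd (xt h01 a * xt h01.symm 1) k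
    refine ⟨(ρ g).val.trace, ⟨g, rfl⟩, ?_⟩
    rw [tr_rk, hg, ← tr_rZ, tr_two]
    push_cast
    rw [ha]
    ring
  have h1 := Set.ncard_image_le hf (f := (PadicInt.toZModPow k : ℤ_[p] →+* ZMod (p ^ k)))
  rw [hsurj, Set.ncard_univ, Nat.card_zmod] at h1
  have h2 : k < p ^ k := Nat.lt_pow_self hp.one_lt
  omega

lemma dif {p : ℕ} [Fact p.Prime] (hn : 3 ≤ n) {Λ : Type} [Group Λ]
    (ρ : Λ →* SpecialLinearGroup (Fin n) ℤ_[p])
    (hd : ∀ (A : SZ n) (k : ℕ), ∃ g : Λ, rk n p k (ρ g) = rZ n (p ^ k) A) :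
    ∃ g, (ρ g).val.trace ≠ (ρ g⁻¹).val.trace := by
  have hp : p.Prime := Fact.out
  have hab : (⟨0, by omega⟩ : Fin n) ≠ ⟨1, by omega⟩ := by
    intro h; simp [Fin.ext_iff] at h
  have hbc : (⟨1, by omega⟩ : Fin n) ≠ ⟨2, by omega⟩ := by
    intro h; simp [Fin.ext_iff] at h
  have hca : (⟨2, by omega⟩ : Fin n) ≠ ⟨0, by omega⟩ := by
    intro h; simp [Fin.ext_iff] at h
  obtain ⟨g, hg⟩ := hd (xt hab 1 * xt hbc 1 * xt hca 1) 1
  refine ⟨g, fun h => ?_⟩
  have h1 := congrArg (PadicInt.toZModPow 1 : ℤ_[p] →+* ZMod (p ^ 1)) h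
  rw [tr_rk, tr_rk, map_inv, map_inv, hg, ← map_inv, ← tr_rZ, ← tr_rZ, tr_three, tr_three'] at h1
  push_cast at h1
  have h2 : ((1 : ℕ) : ZMod (p ^ 1)) = 0 := by
    rw [Nat.cast_one]
    linear_combination h1
  rw [ZMod.natCast_eq_zero_iff, pow_one] at h2
  exact hp.one_lt.ne' (Nat.dvd_one.1 h2)

lemma sepR (R : Type) [CommRing R] (hn : 3 ≤ n) (Y : Matrix (Fin n) (Fin n) R)
    (h : ∀ A : SZ n, (Y * (Int.castRingHom R).mapMatrix A.val).trace = 0) : Y = 0 := by
  have h0 : Y.trace = 0 := by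
    have := h 1
    rw [show (1 : SZ n).val = 1 from rfl, map_one, mul_one] at this
    exact this
  have hm : ∀ i j : Fin n, (Int.castRingHom R).mapMatrix (Matrix.single i j 1) =
      Matrix.single i j 1 := by
    intro i j
    ext a b
    simp only [RingHom.mapMatrix_apply, Matrix.map_apply, Matrix.single, Matrix.of_apply]
    split_ifs <;> simp
  have hs : ∀ i j : Fin n, (Y * Matrix.single i j 1).trace = Y j i := by
    intro i j
    rw [Matrix.trace_mul_single]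
    simp
  have hoff : ∀ i j : Fin n, i ≠ j → Y j i = 0 := by
    intro i j hij
    have := h (xt hij 1)
    rw [show (xt hij 1).val = 1 + Matrix.single i j 1 from rfl, map_add, map_one, hm, mul_add,
      mul_one, Matrix.trace_add, h0, zero_add, hs] at this
    exact this
  have hdiag : ∀ i j : Fin n, i ≠ j → Y i i = 0 := by
    intro i j hij
    have := h (xt hij 1 * xt hij.symm 1)
    rw [show (xt hij 1 * xt hij.symm 1).val = (1 + Matrix.single i j 1) * (1 + Matrix.single j i 1)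
      from rfl, map_mul, map_add, map_add, map_one, hm, hm] at this
    have e : Y * ((1 + Matrix.single i j 1) * (1 + Matrix.single j i 1)) =
        Y + Y * Matrix.single j i 1 + Y * Matrix.single i j 1 + Y * Matrix.single i i 1 := by
      simp only [mul_add, add_mul, mul_one, one_mul, Matrix.single_mul_single_same]
      abel
    rw [e, Matrix.trace_add, Matrix.trace_add, Matrix.trace_add, h0, hs, hs, hs, hoff i j hij,
      hoff j i hij.symm] at this
    simpa using this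
  ext i j
  by_cases hij : i = j
  · subst hij
    obtain ⟨j, hj⟩ : ∃ j : Fin n, i ≠ j := by
      by_cases h0 : i = ⟨0, by omega⟩
      · exact ⟨⟨1, by omega⟩, by rw [h0]; simp [Fin.ext_iff]⟩
      · exact ⟨_, h0⟩
    exact hdiag i j hj
  · exact hoff j i (Ne.symm hij)

lemma absirr {p : ℕ} [Fact p.Prime] (hn : 3 ≤ n) {Λ : Type} [Group Λ]
    (ρ : Λ →* SpecialLinearGroup (Fin n) ℤ_[p])
    (hd : ∀ (A : SZ n) (k : ℕ), ∃ g : Λ, rk n p k (ρ g) = rZ n (p ^ k) A) :
    AI ((toQ n p).comp ρ) := by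
  have hp : p.Prime := Fact.out
  intro X hX
  by_contra hne
  have : Nonempty (Fin n × Fin n) := ⟨(⟨0, by omega⟩, ⟨0, by omega⟩)⟩
  obtain ⟨m, hm⟩ := Finite.exists_max (fun ij : Fin n × Fin n => ‖X ij.1 ij.2‖)
  set c := X m.1 m.2 with hc
  have hc0 : c ≠ 0 := by
    intro h
    apply hne
    ext i j
    have h1 : ‖X i j‖ ≤ ‖c‖ := hm (i, j)
    rw [h, norm_zero] at h1
    exact norm_le_zero_iff.1 h1
  have hnm : ∀ i j, ‖X i j / c‖ ≤ 1 := by
    intro i j
    rw [norm_div, div_le_one (norm_pos_iff.2 hc0)]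
    exact hm (i, j)
  set Y : Matrix (Fin n) (Fin n) ℤ_[p] := Matrix.of fun i j => ⟨X i j / c, hnm i j⟩ with hY
  have htr : ∀ g, (Y * (ρ g).val).trace = 0 := by
    intro g
    apply Subtype.coe_injective
    have h1 := hX g
    have h2 : (((Y * (ρ g).val).trace : ℤ_[p]) : ℚ_[p]) =
        c⁻¹ * (X * (((toQ n p).comp ρ) g).val).trace := by
      simp only [Matrix.trace, Matrix.diag, Matrix.mul_apply, PadicInt.coe_sum, PadicInt.coe_mul,
        Finset.mul_sum]
      refine Finset.sum_congr rfl fun i _ => Finset.sum_congr rfl fun j _ => ?_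
      have h3 : ((Y i j : ℤ_[p]) : ℚ_[p]) = X i j / c := rfl
      have h4 : (((toQ n p).comp ρ) g).val j i = (((ρ g).val j i : ℤ_[p]) : ℚ_[p]) := rfl
      rw [h3, h4]
      ring
    change (((Y * (ρ g).val).trace : ℤ_[p]) : ℚ_[p]) = ((0 : ℤ_[p]) : ℚ_[p])
    rw [h2, h1, mul_zero, PadicInt.coe_zero]
  set Z : Matrix (Fin n) (Fin n) (ZMod (p ^ 1)) := (PadicInt.toZModPow 1).mapMatrix Y with hZ
  have hZ0 : Z = 0 := by
    refine sepR _ hn Z fun A => ?_
    obtain ⟨g, hg⟩ := hd A 1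
    have h1 := congrArg (PadicInt.toZModPow 1 : ℤ_[p] →+* ZMod (p ^ 1)) (htr g)
    rw [AddMonoidHom.map_trace, map_zero] at h1
    have h2 : (Y * (ρ g).val).map (PadicInt.toZModPow 1 : ℤ_[p] →+* ZMod (p ^ 1)) =
        Z * (rk n p 1 (ρ g)).val :=
      map_mul ((PadicInt.toZModPow 1 : ℤ_[p] →+* ZMod (p ^ 1)).mapMatrix) Y (ρ g).val
    rw [h2, hg] at h1
    exact h1
  have h1 := congrFun (congrFun hZ0 m.1) m.2
  have h2 : Z m.1 m.2 = 1 := by
    have h3 : Y m.1 m.2 = 1 := by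
      apply Subtype.coe_injective
      change X m.1 m.2 / c = ((1 : ℤ_[p]) : ℚ_[p])
      rw [← hc, div_self hc0, PadicInt.coe_one]
    change (PadicInt.toZModPow 1 : ℤ_[p] →+* ZMod (p ^ 1)) (Y m.1 m.2) = 1
    rw [h3, map_one]
  rw [h2] at h1
  have h4 : ((1 : ℕ) : ZMod (p ^ 1)) = 0 := by
    rw [Nat.cast_one]
    exact h1
  rw [ZMod.natCast_eq_zero_iff, pow_one] at h4
  exact hp.one_lt.ne' (Nat.dvd_one.1 h4)

theorem pai : S_PAI := by
  intro n hn p _ Λ _ ρ hd
  rw [dense_iff] at hd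
  refine ⟨infin hn ρ hd, dif hn ρ hd, absirr hn ρ hd, ?_⟩
  rw [dense_iff]
  intro A k
  obtain ⟨g, hg⟩ := hd (dl n ℤ A) k
  refine ⟨g, ?_⟩
  have h1 : rk n p k (((dl n ℤ_[p]).comp ρ) g) = dl n (ZMod (p ^ k)) (rk n p k (ρ g)) :=
    map_dl (PadicInt.toZModPow k) (ρ g)
  have h2 : rZ n (p ^ k) (dl n ℤ A) = dl n (ZMod (p ^ k)) (rZ n (p ^ k) A) :=
    map_dl (Int.castRingHom (ZMod (p ^ k))) A
  rw [h1, hg, h2, dl_dl]

end Pool.Agent.H322.GR
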